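import Pool.Agent.H.MP_b4aa87_al.Tree

set_option autoImplicit false

namespace Pool.Agent.H.MP_b4aa87_al

open Equiv

lemma cons_inj {N : ℕ → ℕ} {x : Bool} {p q : X (sh N)} (h : cons x p = cons x q) : p = q := by
  let tl : X N → Option (X (sh N)) := fun r => match r with
    | ⟨[], _⟩ => none
    | ⟨_ :: v, y⟩ => some ⟨v, y⟩
  exact Option.some.inj (congrArg tl h)

lemma nil_inj {N : ℕ → ℕ} {y z : ZMod (N 0 + 4)} (h : (nil y : X N) = nil z) : y = z :=
  eq_of_heq (Sigma.mk.inj h).2

lemma pow_split {N : ℕ → ℕ} {g : Perm (X N)} {π : Perm (ZMod (N 0 + 4))}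
    {h : Bool → Perm (X (sh N))} (h1 : ∀ y, g (nil y) = nil (π y))
    (h2 : ∀ x p, g (cons x p) = cons x (h x p)) (n : ℕ) :
    g ^ n = 1 ↔ π ^ n = 1 ∧ h false ^ n = 1 ∧ h true ^ n = 1 := by
  have a1 : ∀ y, (g ^ n) (nil y) = nil ((π ^ n) y) := by
    induction n with
    | zero => intro y; rfl
    | succ n ih => intro y; rw [pow_succ', pow_succ', Perm.mul_apply, Perm.mul_apply, ih, h1]
  have a2 : ∀ x p, (g ^ n) (cons x p) = cons x ((h x ^ n) p) := by
    clear a1
    induction n with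
    | zero => intro x p; rfl
    | succ n ih => intro x p; rw [pow_succ', pow_succ', Perm.mul_apply, Perm.mul_apply, ih, h2]
  constructor
  · intro e
    rw [e] at a1 a2
    exact ⟨Equiv.ext fun y => (nil_inj (a1 y)).symm, Equiv.ext fun p => (cons_inj (a2 _ p)).symm,
      Equiv.ext fun p => (cons_inj (a2 _ p)).symm⟩
  · rintro ⟨e1, e2, e3⟩
    ext1 p
    rcases X_cases p with ⟨y, rfl⟩ | ⟨x, q, rfl⟩
    · rw [a1, e1]; rfl
    · rw [a2]
      cases x
      · rw [e2]; rfl
      · rw [e3]; rfl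

def Nul (w : List L) : Prop := ∀ (N : ℕ → ℕ) (x : Bool) (p : X (sh N)), ev N w (cons x p) = cons x p

lemma Nul.pow {w : List L} (h : Nul w) (N : ℕ → ℕ) (n : ℕ) :
    ev N w ^ n = 1 ↔ ev0 (N 0) w ^ n = 1 := by
  rw [pow_split (h := fun _ => 1) (ev_at_nil N w) (h N)]
  simp

lemma Nul.append {u w : List L} (hu : Nul u) (hw : Nul w) : Nul (u ++ w) := by
  intro N x p
  rw [ev_append, Perm.mul_apply, hw, hu]

lemma ev_rev (N : ℕ → ℕ) (u : List L) : ev N u * ev N u.reverse = 1 := by
  induction u with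
  | nil => simp
  | cons l u ih =>
    simp only [List.reverse_cons, ev_cons, ev_append, ev_nil, mul_one]
    rw [mul_assoc, ← mul_assoc (ev N u), ih, one_mul, gen_sq]

lemma ev0_rev (n : ℕ) (u : List L) : ev0 n u.reverse = (ev0 n u)⁻¹ := by
  induction u with
  | nil => simp
  | cons l u ih =>
    simp only [List.reverse_cons, ev0_cons, ev0_append, ev0_nil, mul_one, ih, mul_inv_rev]
    congr 1
    apply eq_inv_of_mul_eq_one_left
    rw [F_mul n l l (Or.inl Iff.rfl)]
    have : mm l l = 4 := by revert l; decide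
    rw [this]; rfl

lemma Nul.conj {w : List L} (hw : Nul w) (u : List L) : Nul (u ++ w ++ u.reverse) := by
  intro N x p
  rw [ev_append, ev_append, Perm.mul_apply, Perm.mul_apply, ev_at_cons N u.reverse, hw,
    ← ev_at_cons, ← Perm.mul_apply, ev_rev]
  rfl

def R : List L := [3, 0, 3, 0, 3, 0, 3, 0]

lemma nul_R : Nul R := by
  intro N x p
  rw [ev_at_cons]
  cases x
  · have e1 : rt R false = false := rfl
    have e2 : secs R false = [4, 4, 1, 4, 4, 4, 1, 4] := by decide
    rw [e1, e2]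
    simp [gen_e, gen_sq]
  · have e1 : rt R true = true := rfl
    have e2 : secs R true = [1, 4, 4, 4, 1, 4, 4, 4] := by decide
    rw [e1, e2]
    simp [gen_e, gen_sq]

lemma cube {α : Type*} [DecidableEq α] {x y z : α} (h1 : x ≠ y) (h2 : y ≠ z) (h3 : x ≠ z) :
    (swap x y * swap y z) ^ 3 = 1 := by
  have := List.formPerm_pow_length_eq_one_of_nodup (l := [x, y, z]) (by simp [h1, h2, h3])
  simpa using this

lemma cast_inj (n : ℕ) {i j : ℕ} (hi : i < n + 4) (hj : j < n + 4)
    (h : (i : ZMod (n + 4)) = j) : i = j := by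
  have := congrArg ZMod.val h
  rwa [ZMod.val_cast_of_lt hi, ZMod.val_cast_of_lt hj] at this

lemma u_cube (n : ℕ) : (swap (-1) 0 * swap 0 1 : Perm (ZMod (n + 4))) ^ 3 = 1 := by
  have h1 : (0 : ZMod (n + 4)) ≠ 1 := fun h =>
    absurd (cast_inj n (i := 0) (j := 1) (by omega) (by omega) (by simpa using h)) (by decide)
  have h2 : (0 : ZMod (n + 4)) ≠ 2 := fun h =>
    absurd (cast_inj n (i := 0) (j := 2) (by omega) (by omega) (by simpa using h)) (by decide)
  apply cube _ h1
  · intro h; apply h2; linear_combination h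
  · intro h; apply h1; linear_combination h

lemma ev0_R (n : ℕ) : ev0 n R = swap (-1) 0 * swap 0 1 := by
  have h3 : (Equiv.neg (ZMod (n + 4)) : Perm (ZMod (n + 4))) * Equiv.neg _ = 1 := by
    ext y; simp
  have h5 : (Equiv.neg (ZMod (n + 4)) : Perm (ZMod (n + 4))) * swap 0 1 =
      swap (-1) 0 * Equiv.neg _ := by
    rw [mul_swap_eq_swap_mul]; simp [swap_comm]
  have h6 := u_cube n
  have h7 : (swap 0 1 : Perm (ZMod (n + 4))) * swap 0 1 = 1 := swap_mul_self _ _
  have h8 : (swap (-1) 0 : Perm (ZMod (n + 4))) * swap (-1) 0 = 1 := swap_mul_self _ _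
  have e : ev0 n R = (swap 0 1 * (Equiv.neg _ * swap 0 1) * Equiv.neg _) ^ 2 := by
    simp [R, F, pow_two, mul_assoc]
  rw [e, h5]
  generalize (Equiv.neg (ZMod (n + 4)) : Perm (ZMod (n + 4))) = a at *
  generalize (swap 0 1 : Perm (ZMod (n + 4))) = d at *
  generalize (swap (-1) 0 : Perm (ZMod (n + 4))) = s at *
  have e1 : d * (s * a) * a = (s * d)⁻¹ := by
    rw [mul_assoc, mul_assoc, h3, mul_one]
    apply eq_inv_of_mul_eq_one_left
    rw [mul_assoc, ← mul_assoc s, h8, one_mul, h7]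
  rw [e1, inv_pow]
  apply inv_eq_of_mul_eq_one_right
  rw [← pow_succ, h6]

lemma dih {G : Type*} [Group G] {a d : G} (ha : a * a = 1) (hd : d * d = 1)
    (h : (d * a) ^ 12 = 1) (w : List G) (hw : ∀ g ∈ w, g = a ∨ g = d ∨ g = 1) :
    w.prod ^ 12 = 1 := by
  set r := d * a with hr
  have k : ∀ j : ℤ, a * r ^ j = r ^ (-j) * a := by
    intro j
    have e : a * r * a⁻¹ = r⁻¹ := by
      apply eq_inv_of_mul_eq_one_left
      rw [inv_eq_of_mul_eq_one_left ha, hr]
      calc a * (d * a) * a * (d * a) = a * d * (a * a) * d * a := by simp only [mul_assoc]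
        _ = a * (d * d) * a := by rw [ha]; simp only [mul_assoc, mul_one]
        _ = 1 := by rw [hd, mul_one, ha]
    rw [zpow_neg, ← inv_zpow, ← e, conj_zpow, inv_mul_cancel_right]
  have hda : d = r * a := by rw [hr, mul_assoc, ha, mul_one]
  clear_value r
  have P : ∃ j : ℤ, w.prod = r ^ j ∨ w.prod = r ^ j * a := by
    induction w with
    | nil => exact ⟨0, Or.inl (by simp)⟩
    | cons g w ih =>
      obtain ⟨j, hj⟩ := ih fun g hg => hw g (List.mem_cons_of_mem _ hg)
      rw [List.prod_cons]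
      rcases hw g List.mem_cons_self with rfl | e | rfl
      · rcases hj with hj | hj
        · exact ⟨-j, Or.inr (by rw [hj, k])⟩
        · exact ⟨-j, Or.inl (by rw [hj, ← mul_assoc, k, mul_assoc, ha, mul_one])⟩
      · rcases hj with hj | hj
        · exact ⟨1 + -j, Or.inr (by rw [hj, e, hda, mul_assoc, k, zpow_add, zpow_one, mul_assoc])⟩
        · refine ⟨1 + -j, Or.inl ?_⟩
          rw [hj, e, hda, mul_assoc, ← mul_assoc a, k, mul_assoc, ha, mul_one, zpow_add, zpow_one]
      · exact ⟨j, by simpa using hj⟩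
  obtain ⟨j, hj | hj⟩ := P
  · rw [hj, ← zpow_natCast, ← zpow_mul, mul_comm, zpow_mul, zpow_natCast, h, one_zpow]
  · have : w.prod ^ 2 = 1 := by
      rw [hj, pow_two, mul_assoc, ← mul_assoc a, k, mul_assoc, ha, mul_one, ← zpow_add]
      simp
    rw [show 12 = 2 * 6 from rfl, pow_mul, this, one_pow]

def sg (w : List L) : List L := w.flatMap ![[0, 2, 0], [3], [1], [2], [4]]

def th (w : List L) : List L := w.map ![3, 4, 0, 0, 4]

lemma th_pow (N : ℕ → ℕ) (w : List L) : ev N (th w) ^ 12 = 1 := by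
  apply dih (gen_sq N 0) (gen_sq N 3)
  · have e : ev N R = (gen N 3 * gen N 0) ^ 4 := by
      simp [R, pow_succ, mul_assoc]
    rw [show 12 = 4 * 3 from rfl, pow_mul, ← e, nul_R.pow, ev0_R, u_cube]
  · intro g hg
    simp only [th, List.map_map, List.mem_map] at hg
    obtain ⟨l, -, rfl⟩ := hg
    fin_cases l <;> simp [gen_e]

lemma ev_sg (N : ℕ → ℕ) (w : List L) (x : Bool) (p : X (sh N)) :
    ev N (sg w) (cons x p) = cons x (ev (sh N) (if x then w else th w) p) := by
  induction w with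
  | nil => cases x <;> rfl
  | cons l w ih =>
    have e : sg (l :: w) = ![[0, 2, 0], [3], [1], [2], [4]] l ++ sg w := by simp [sg]
    rw [e, ev_append, Perm.mul_apply, ih, ev_at_cons]
    cases x <;> fin_cases l <;> simp [th, rt, secs, root, so, gen_e]

lemma len_sg (w : List L) : (sg w).length ≤ 3 * w.length := by
  induction w with
  | nil => simp [sg]
  | cons l w ih =>
    have e : sg (l :: w) = ![[0, 2, 0], [3], [1], [2], [4]] l ++ sg w := by simp [sg]
    have : (![[0, 2, 0], [3], [1], [2], [4]] l : List L).length ≤ 3 := by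
      clear * -
      revert l; decide
    rw [e, List.length_append, List.length_cons]
    omega

lemma len_sgk (k : ℕ) (w : List L) : (sg^[k] w).length ≤ 3 ^ k * w.length := by
  induction k with
  | zero => simp
  | succ k ih =>
    rw [Function.iterate_succ_apply', pow_succ]
    have := len_sg (sg^[k] w)
    nlinarith

lemma key (k : ℕ) : ∀ (N : ℕ → ℕ) (w : List L) (n : ℕ), Nul w → 12 ∣ n →
    (∀ i < k, (N i + 4).factorial ∣ n) → (ev N (sg^[k] w) ^ n = 1 ↔ ev0 (N k) w ^ n = 1) := by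
  induction k with
  | zero => intro N w n h _ _; exact h.pow N n
  | succ k ih =>
    intro N w n h h12 hf
    rw [Function.iterate_succ_apply', pow_split
      (h := fun x => ev (sh N) (if x then sg^[k] w else th (sg^[k] w))) (ev_at_nil N _) (ev_sg N _)]
    have e1 : ev0 (N 0) (sg (sg^[k] w)) ^ n = 1 := by
      obtain ⟨m, rfl⟩ := hf 0 (Nat.succ_pos k)
      have : (N 0 + 4).factorial = Fintype.card (Perm (ZMod (N 0 + 4))) := by
        rw [Fintype.card_perm, ZMod.card]
      rw [pow_mul, this, pow_card_eq_one, one_pow]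
    have e2 : ev (sh N) (th (sg^[k] w)) ^ n = 1 := by
      obtain ⟨m, rfl⟩ := h12
      rw [pow_mul, th_pow, one_pow]
    simp only [e1, e2, true_and, if_true, Bool.false_eq_true, if_false]
    exact ih (sh N) w n h h12 fun i hi => hf (i + 1) (by omega)

def T : ℕ → List L
  | 0 => []
  | i + 1 => 1 :: 0 :: T i

lemma len_T (i : ℕ) : (T i).length = 2 * i := by
  induction i with
  | zero => rfl
  | succ i ih => simp [T, ih]; omega

lemma ev0_T (n i : ℕ) (y : ZMod (n + 4)) : ev0 n (T i) y = y + i := by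
  induction i with
  | zero => simp [T]
  | succ i ih => simp [T, F, ih]; ring

def cyc : ℕ → ℕ → List L
  | _, 0 => []
  | o, j + 1 => (T (o + 1) ++ R ++ (T (o + 1)).reverse) ++ cyc (o + 2) j

lemma nul_cyc (j : ℕ) : ∀ o, Nul (cyc o j) := by
  induction j with
  | zero => intro o N x p; rfl
  | succ j ih => intro o; exact (nul_R.conj _).append (ih _)

lemma len_cyc (j : ℕ) : ∀ o, (cyc o j).length ≤ j * (4 * (o + 2 * j) + 8) := by
  induction j with
  | zero => intro o; simp [cyc]
  | succ j ih =>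
    intro o
    have := ih (o + 2)
    simp only [cyc, List.length_append, List.length_reverse, len_T]
    have : R.length = 8 := rfl
    nlinarith

def seg (n o p : ℕ) : List (ZMod (n + 4)) := (List.range' o p).map Nat.cast

lemma ev0_cyc (n j : ℕ) : ∀ o, ev0 n (cyc o j) = (seg n o (2 * j + 1)).formPerm := by
  induction j with
  | zero => intro o; simp [cyc, seg]
  | succ j ih =>
    intro o
    have e : seg n o (2 * (j + 1) + 1) = (o : ZMod (n + 4)) :: ((o + 1 : ℕ) : ZMod (n + 4)) ::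
        ((o + 2 : ℕ) : ZMod (n + 4)) :: seg n (o + 3) (2 * j) := by
      simp [seg, Nat.mul_add, List.range'_succ, add_assoc, one_add_one_eq_two]
    have e' : seg n (o + 2) (2 * j + 1) = ((o + 2 : ℕ) : ZMod (n + 4)) :: seg n (o + 3) (2 * j) := by
      simp [seg, List.range'_succ]
    rw [cyc, ev0_append, ih, e, e', List.formPerm_cons_cons, List.formPerm_cons_cons, ← mul_assoc,
      ev0_append, ev0_append, ev0_rev, ev0_R]
    congr 1
    set f := ev0 n (T (o + 1)) with hf
    have : f * (swap (-1) 0 * swap 0 1) * f⁻¹ = (f * swap (-1) 0 * f⁻¹) * (f * swap 0 1 * f⁻¹) := by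
      group
    rw [this, ← swap_apply_apply, ← swap_apply_apply, hf, ev0_T, ev0_T, ev0_T]
    congr 2 <;> push_cast <;> ring

lemma seg_nodup {n o p : ℕ} (h : o + p ≤ n + 4) : (seg n o p).Nodup := by
  apply List.Nodup.map_on _ List.nodup_range'
  intro i hi j hj e
  rw [List.mem_range'_1] at hi hj
  exact cast_inj n (by omega) (by omega) e

lemma order_seg {n o p : ℕ} (h : o + p ≤ n + 4) (hp : 2 ≤ p) :
    orderOf (seg n o p).formPerm = p := by
  have hl : (seg n o p).length = p := by simp [seg]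
  rw [(List.isCycle_formPerm (seg_nodup h) (by omega)).orderOf,
    List.support_formPerm_of_nodup _ (seg_nodup h) (fun y e => by rw [e] at hl; simp at hl; omega),
    List.toFinset_card_of_nodup (seg_nodup h), hl]

def W (x : ℕ) (ps : List ℕ) : List L := ps.flatMap fun p => cyc (p * x) (p / 2)

lemma nul_W (x : ℕ) (ps : List ℕ) : Nul (W x ps) := by
  induction ps with
  | nil => intro N x p; rfl
  | cons p ps ih => exact (nul_cyc _ _).append ih

lemma len_W {x : ℕ} (hx : 1 ≤ x) (ps : List ℕ) (h : ∀ p ∈ ps, p ≤ x) :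
    (W x ps).length ≤ ps.length * (16 * x ^ 3) := by
  induction ps with
  | nil => simp [W]
  | cons p ps ih =>
    have ih := ih fun q hq => h q (List.mem_cons_of_mem _ hq)
    have hp := h p List.mem_cons_self
    have h1 := len_cyc (p / 2) (p * x)
    have h2 : p / 2 * (4 * (p * x + 2 * (p / 2)) + 8) ≤ x * (16 * x ^ 2) := by
      apply Nat.mul_le_mul (by omega)
      have : p * x ≤ x * x := Nat.mul_le_mul_right _ hp
      have : 2 * (p / 2) ≤ x := by omega
      nlinarith
    have e : W x (p :: ps) = cyc (p * x) (p / 2) ++ W x ps := by simp [W]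
    rw [e, List.length_append, List.length_cons]
    nlinarith

lemma order_W {n x : ℕ} (hn : x * (x + 1) ≤ n + 4) (ps : List ℕ) (hnd : ps.Nodup)
    (h : ∀ p ∈ ps, p.Prime ∧ 2 < p ∧ p ≤ x) :
    orderOf (ev0 n (W x ps)) = ps.prod ∧
      ∀ y, ev0 n (W x ps) y ≠ y → ∃ p ∈ ps, y ∈ seg n (p * x) p := by
  induction ps with
  | nil => simp [W]
  | cons p ps ih =>
    obtain ⟨ih1, ih2⟩ := ih hnd.of_cons fun q hq => h q (List.mem_cons_of_mem _ hq)
    obtain ⟨hp, hp2, hpx⟩ := h p List.mem_cons_self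
    have hodd : 2 * (p / 2) + 1 = p := by
      have := hp.eq_two_or_odd
      omega
    have e : ev0 n (W x (p :: ps)) = (seg n (p * x) p).formPerm * ev0 n (W x ps) := by
      have e : W x (p :: ps) = cyc (p * x) (p / 2) ++ W x ps := by simp [W]
      rw [e, ev0_append, ev0_cyc, hodd]
    have hb : ∀ q, q ≤ x → q * x + q ≤ n + 4 := fun q hq => by nlinarith
    have hdis : Perm.Disjoint (seg n (p * x) p).formPerm (ev0 n (W x ps)) := by
      intro y
      by_contra hc
      push Not at hc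
      obtain ⟨q, hq, hy⟩ := ih2 y hc.2
      have hy' := List.mem_of_formPerm_apply_ne hc.1
      have hqx := (h q (List.mem_cons_of_mem _ hq)).2.2
      simp only [seg, List.mem_map, List.mem_range'_1] at hy hy'
      obtain ⟨i, hi, rfl⟩ := hy
      obtain ⟨j, hj, e⟩ := hy'
      have := hb p hpx
      have := hb q hqx
      have e' := cast_inj n (by omega) (by omega) e
      subst e'
      have hpq : p ≠ q := fun e => (List.nodup_cons.1 hnd).1 (e ▸ hq)
      rcases lt_or_gt_of_ne hpq with c | c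
      · have : (p + 1) * x ≤ q * x := Nat.mul_le_mul_right _ c
        nlinarith
      · have : (q + 1) * x ≤ p * x := Nat.mul_le_mul_right _ c
        nlinarith
    constructor
    · rw [e, hdis.orderOf, order_seg (hb p hpx) hp2.le, ih1, List.prod_cons]
      apply Nat.Coprime.lcm_eq_mul
      rw [Nat.coprime_list_prod_right_iff]
      intro q hq
      rw [Nat.coprime_primes hp (h q (List.mem_cons_of_mem _ hq)).1]
      exact fun e => (List.nodup_cons.1 hnd).1 (e ▸ hq)
    · intro y hy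
      rw [e, Perm.mul_apply] at hy
      by_cases h1 : ev0 n (W x ps) y = y
      · rw [h1] at hy
        exact ⟨p, List.mem_cons_self, List.mem_of_formPerm_apply_ne hy⟩
      · obtain ⟨q, hq, hy⟩ := ih2 y h1
        exact ⟨q, List.mem_cons_of_mem _ hq, hy⟩

def PP (s x : ℕ) : Finset ℕ := (Nat.primesLE x).filter fun p => s < p

lemma many_primes (k s : ℕ) : ∃ x, 1 ≤ x ∧
    k * (k * (3 ^ k * (x * (16 * x ^ 3))) + k) ^ k + k < 2 ^ (PP s x).card := by
  set C := k * (k * (3 ^ k * 16) + k) ^ k + k + 1 with hC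
  set D := C + s + 1 + 4 * k + 2 with hD
  obtain ⟨j, hj1, hj⟩ : ∃ j : ℕ, 1 ≤ j ∧ D * j ^ 2 < 2 ^ j := by
    have := (tendsto_pow_const_div_const_pow_of_one_lt 2 (r := 2) one_lt_two).eventually
      (gt_mem_nhds (show (0:ℝ) < 1 / D by positivity))
    obtain ⟨j, h1, h2⟩ := (this.and (Filter.eventually_ge_atTop 1)).exists
    refine ⟨j, h2, ?_⟩
    rw [div_lt_div_iff₀ (by positivity) (by positivity)] at h1
    exact_mod_cast (by linarith : (D:ℝ) * j ^ 2 < 2 ^ j)
  refine ⟨2 ^ j, Nat.one_le_two_pow, ?_⟩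
  have h1 := Chebyshev.two_pow_le_mul_lcmUpto (2 ^ j)
  have h2 : Nat.lcmUpto (2 ^ j) ≤ (2 ^ j) ^ (Nat.primesLE (2 ^ j)).card := by
    rw [Nat.lcmUpto_eq_prod_pow_log]
    apply Finset.prod_le_pow_card
    intro p _
    exact Nat.pow_log_le_self _ (by positivity)
  set π := (Nat.primesLE (2 ^ j)).card with hπ
  have h3 : 2 ^ j ≤ j + 1 + j * π := by
    rw [← Nat.pow_le_pow_iff_right (a := 2) one_lt_two, pow_add, pow_mul, pow_succ]
    refine h1.trans (Nat.mul_le_mul ?_ h2)
    have : 1 ≤ 2 ^ j := Nat.one_le_two_pow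
    omega
  have h4 : π ≤ (PP s (2 ^ j)).card + (s + 1) := by
    rw [hπ, ← Finset.card_range (s + 1)]
    refine (Finset.card_le_card ?_).trans (Finset.card_union_le _ _)
    intro p hp
    by_cases c : s < p
    · exact Finset.mem_union_left _ (Finset.mem_filter.2 ⟨hp, c⟩)
    · exact Finset.mem_union_right _ (Finset.mem_range.2 (by omega))
  have h5 : C + 4 * j * k ≤ (PP s (2 ^ j)).card := by
    by_contra hc
    have a : π ≤ C + 4 * j * k + s + 1 := by omega
    have b := Nat.mul_le_mul_left j a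
    have c1 : j ≤ j ^ 2 := by nlinarith
    have c2 : j * (C + s + 1) ≤ j ^ 2 * (C + s + 1) := Nat.mul_le_mul_right _ c1
    nlinarith
  refine lt_of_lt_of_le ?_ (Nat.pow_le_pow_right two_pos h5)
  set y := 2 ^ (4 * j) with hy
  have hy1 : 1 ≤ y := Nat.one_le_two_pow
  have e1 : 2 ^ j * (16 * (2 ^ j) ^ 3) = 16 * y := by rw [hy]; ring
  have e2 : k * (3 ^ k * (16 * y)) + k ≤ (k * (3 ^ k * 16) + k) * y := by nlinarith
  have e3 := Nat.pow_le_pow_left e2 k
  have e4 : 1 ≤ y ^ k := Nat.one_le_pow _ _ hy1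
  have e5 : C < 2 ^ C := Nat.lt_two_pow_self
  rw [e1, pow_add, pow_mul, ← hy]
  rw [mul_pow] at e3
  calc k * (k * (3 ^ k * (16 * y)) + k) ^ k + k
      ≤ k * ((k * (3 ^ k * 16) + k) ^ k * y ^ k) + k * y ^ k :=
        Nat.add_le_add (Nat.mul_le_mul_left _ e3) (Nat.le_mul_of_pos_right _ e4)
    _ ≤ C * y ^ k := by rw [hC]; nlinarith
    _ < 2 ^ C * y ^ k := Nat.mul_lt_mul_of_pos_right e5 e4

end Pool.Agent.H.MP_b4aa87_al
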