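import Mathlib

set_option autoImplicit false

namespace Pool.Agent.H.MP_b4aa87_al

open Equiv

abbrev L := Fin 5

def F (n : ℕ) : L → Perm (ZMod (n + 4)) :=
  ![Equiv.neg _, Equiv.subLeft 1, Equiv.subLeft 1 * swap 0 1, swap 0 1, 1]

def X (N : ℕ → ℕ) := Σ v : List Bool, ZMod (N v.length + 4)

def sh (N : ℕ → ℕ) : ℕ → ℕ := fun k => N (k + 1)

def cons {N : ℕ → ℕ} (x : Bool) (p : X (sh N)) : X N := ⟨x :: p.1, p.2⟩

def nil {N : ℕ → ℕ} (y : ZMod (N 0 + 4)) : X N := ⟨[], y⟩

def root (l : L) (x : Bool) : Bool := if l = 0 then !x else x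

def so (l : L) (x : Bool) : L := if x then ![4, 2, 3, 1, 4] l else ![4, 0, 0, 4, 4] l

def act : (v : List Bool) → (N : ℕ → ℕ) → L → ZMod (N v.length + 4) → X N
  | [], N, l, y => nil (F (N 0) l y)
  | x :: v, N, l, y => cons (root l x) (act v (sh N) (so l x) y)

def act' (N : ℕ → ℕ) (l : L) (p : X N) : X N := act p.1 N l p.2

lemma act'_nil (N : ℕ → ℕ) (l : L) (y : ZMod (N 0 + 4)) : act' N l (nil y) = nil (F (N 0) l y) :=
  rfl

lemma act'_cons (N : ℕ → ℕ) (l : L) (x : Bool) (p : X (sh N)) :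
    act' N l (cons x p) = cons (root l x) (act' (sh N) (so l x) p) := rfl

def mm (l l' : L) : L :=
  ![![4, 4, 4, 4, 0], ![4, 4, 3, 2, 1], ![4, 3, 4, 1, 2], ![4, 2, 1, 4, 3], ![0, 1, 2, 3, 4]] l l'

def Comp (l l' : L) : Prop := (l = 0 ↔ l' = 0) ∨ l = 4 ∨ l' = 4

instance (l l' : L) : Decidable (Comp l l') := by unfold Comp; infer_instance

lemma bb (n : ℕ) : (Equiv.subLeft 1 : Perm (ZMod (n + 4))) * Equiv.subLeft 1 = 1 := by
  ext y; simp

lemma bd (n : ℕ) : (swap 0 1 : Perm (ZMod (n + 4))) * Equiv.subLeft 1 =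
    Equiv.subLeft 1 * swap 0 1 := by
  rw [mul_swap_eq_swap_mul]
  simp [swap_comm]

lemma F_mul (n : ℕ) (l l' : L) (h : Comp l l') : F n l * F n l' = F n (mm l l') := by
  have h1 := bb n
  have h2 := bd n
  have h3 : (Equiv.neg (ZMod (n + 4)) : Perm (ZMod (n + 4))) * Equiv.neg _ = 1 := by
    ext y; simp
  have h4 : (swap 0 1 : Perm (ZMod (n + 4))) * swap 0 1 = 1 := swap_mul_self _ _
  generalize hb : (Equiv.subLeft 1 : Perm (ZMod (n + 4))) = b at *
  generalize hd : (swap 0 1 : Perm (ZMod (n + 4))) = d at *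
  have h5 : ∀ z, d * (b * z) = b * (d * z) := fun z => by rw [← mul_assoc, h2, mul_assoc]
  have h6 : ∀ z, b * (b * z) = z := fun z => by rw [← mul_assoc, h1, one_mul]
  fin_cases l <;> fin_cases l' <;> first
    | exact absurd h (by decide)
    | simp [F, mm, hb, hd, h1, h2, h3, h4, h5, h6, mul_assoc]

lemma tab : ∀ (l l' : L) (x : Bool), Comp l l' → Comp (so l (root l' x)) (so l' x) ∧
    mm (so l (root l' x)) (so l' x) = so (mm l l') x ∧ root l (root l' x) = root (mm l l') x := by
  decide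

lemma act_mul (v : List Bool) : ∀ (N : ℕ → ℕ) (l l' : L) (y : ZMod (N v.length + 4)), Comp l l' →
    act' N l (act' N l' ⟨v, y⟩) = act' N (mm l l') ⟨v, y⟩ := by
  induction v with
  | nil =>
    intro N l l' y h
    change nil (F (N 0) l (F (N 0) l' y)) = nil (F (N 0) (mm l l') y)
    rw [← F_mul _ _ _ h]; rfl
  | cons x v ih =>
    intro N l l' y h
    obtain ⟨h1, h2, h3⟩ := tab l l' x h
    change act' N l (act' N l' (cons x ⟨v, y⟩)) = act' N (mm l l') (cons x ⟨v, y⟩)
    rw [act'_cons, act'_cons, act'_cons, ih (sh N) _ _ y h1, h2, h3]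

lemma act_e (v : List Bool) : ∀ (N : ℕ → ℕ) (y : ZMod (N v.length + 4)),
    act' N 4 ⟨v, y⟩ = ⟨v, y⟩ := by
  induction v with
  | nil => intro N y; rfl
  | cons x v ih =>
    intro N y
    change act' N 4 (cons x ⟨v, y⟩) = cons x ⟨v, y⟩
    rw [act'_cons]
    have : so 4 x = 4 := by cases x <;> rfl
    rw [this, ih]; rfl

lemma invol (N : ℕ → ℕ) (l : L) : Function.Involutive (act' N l) := by
  rintro ⟨v, y⟩
  rw [act_mul v N l l y (Or.inl Iff.rfl)]
  have : mm l l = 4 := by revert l; decide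
  rw [this, act_e]

def gen (N : ℕ → ℕ) (l : L) : Perm (X N) := (invol N l).toPerm

lemma gen_mul (N : ℕ → ℕ) {l l' : L} (h : Comp l l') : gen N l * gen N l' = gen N (mm l l') := by
  ext1 ⟨v, y⟩
  exact act_mul v N l l' y h

lemma gen_e (N : ℕ → ℕ) : gen N 4 = 1 := by
  ext1 ⟨v, y⟩
  exact act_e v N y

lemma gen_sq (N : ℕ → ℕ) (l : L) : gen N l * gen N l = 1 := by
  ext1 p
  exact invol N l p

lemma gen_cons (N : ℕ → ℕ) (l : L) (x : Bool) (p : X (sh N)) :
    gen N l (cons x p) = cons (root l x) (gen (sh N) (so l x) p) := rfl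

def ev (N : ℕ → ℕ) (w : List L) : Perm (X N) := (w.map (gen N)).prod

def ev0 (n : ℕ) (w : List L) : Perm (ZMod (n + 4)) := (w.map (F n)).prod

@[simp] lemma ev_nil (N : ℕ → ℕ) : ev N [] = 1 := rfl
@[simp] lemma ev_cons (N : ℕ → ℕ) (l : L) (w : List L) : ev N (l :: w) = gen N l * ev N w := by
  simp [ev]
@[simp] lemma ev_append (N : ℕ → ℕ) (u w : List L) : ev N (u ++ w) = ev N u * ev N w := by
  simp [ev]
@[simp] lemma ev0_nil (n : ℕ) : ev0 n [] = 1 := rfl
@[simp] lemma ev0_cons (n : ℕ) (l : L) (w : List L) : ev0 n (l :: w) = F n l * ev0 n w := by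
  simp [ev0]
@[simp] lemma ev0_append (n : ℕ) (u w : List L) : ev0 n (u ++ w) = ev0 n u * ev0 n w := by
  simp [ev0]

def rt : List L → Bool → Bool
  | [], x => x
  | l :: w, x => root l (rt w x)

def secs : List L → Bool → List L
  | [], _ => []
  | l :: w, x => so l (rt w x) :: secs w x

lemma ev_at_nil (N : ℕ → ℕ) (w : List L) (y : ZMod (N 0 + 4)) :
    ev N w (nil y) = nil (ev0 (N 0) w y) := by
  induction w with
  | nil => rfl
  | cons l w ih => rw [ev_cons, ev0_cons, Perm.mul_apply, Perm.mul_apply, ih]; rfl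

lemma ev_at_cons (N : ℕ → ℕ) (w : List L) (x : Bool) (p : X (sh N)) :
    ev N w (cons x p) = cons (rt w x) (ev (sh N) (secs w x) p) := by
  induction w with
  | nil => rfl
  | cons l w ih => rw [ev_cons, Perm.mul_apply, ih, gen_cons, secs, ev_cons]; rfl

lemma X_cases {N : ℕ → ℕ} (p : X N) : (∃ y, p = nil y) ∨ ∃ x q, p = cons x q := by
  obtain ⟨v, y⟩ := p
  cases v with
  | nil => exact Or.inl ⟨y, rfl⟩
  | cons x v => exact Or.inr ⟨x, ⟨v, y⟩, rfl⟩

def wl (l : L) : ℕ := ![5, 6, 4, 2, 0] l
def wt (w : List L) : ℕ := (w.map wl).sum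
def sw (w : List L) : ℕ := (w.map fun l => wl (so l true) + wl (so l false)).sum

lemma rt_true (w : List L) : rt w true = !rt w false := by
  induction w with
  | nil => rfl
  | cons l w ih =>
    simp only [rt, ih]
    generalize rt w false = z
    revert l z; decide

lemma wt_secs (w : List L) : wt (secs w true) + wt (secs w false) = sw w := by
  induction w with
  | nil => rfl
  | cons l w ih =>
    simp only [wt, sw, secs, List.map_cons, List.sum_cons, rt_true] at ih ⊢
    cases rt w false <;> simp only [Bool.not_true, Bool.not_false] <;> omega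

def Alt : List L → Prop
  | [] => True
  | [l] => l ≠ 4
  | l :: l' :: r => ¬ Comp l l' ∧ Alt (l' :: r)

lemma Alt.tail {l : L} {w : List L} (h : Alt (l :: w)) : Alt w := by
  cases w with
  | nil => trivial
  | cons l' r => exact h.2

lemma Alt.head {l : L} {w : List L} (h : Alt (l :: w)) : l ≠ 4 := by
  cases w with
  | nil => exact h
  | cons l' r => exact fun e => h.1 (Or.inr (Or.inl e))

lemma reduce (N : ℕ → ℕ) (w : List L) : ∃ u, Alt u ∧ wt u ≤ wt w ∧ ev N u = ev N w := by
  induction w with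
  | nil => exact ⟨[], trivial, le_rfl, rfl⟩
  | cons l w ih =>
    obtain ⟨u, h1, h2, h3⟩ := ih
    have hw : wt (l :: w) = wl l + wt w := by simp [wt]
    by_cases hl : l = 4
    · exact ⟨u, h1, by omega, by rw [ev_cons, hl, gen_e, one_mul, h3]⟩
    cases u with
    | nil => exact ⟨[l], hl, by simp [wt], by rw [ev_cons, ev_cons, h3]⟩
    | cons l' r =>
      have hu : wt (l' :: r) = wl l' + wt r := by simp [wt]
      by_cases hc : Comp l l'
      · have e : ev N (mm l l' :: r) = ev N (l :: w) := by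
          rw [ev_cons, ev_cons, ← h3, ev_cons, ← mul_assoc, gen_mul N hc]
        by_cases hm : mm l l' = 4
        · exact ⟨r, h1.tail, by omega, by rw [← e, ev_cons, hm, gen_e, one_mul]⟩
        · refine ⟨mm l l' :: r, ?_, ?_, e⟩
          · cases r with
            | nil => exact hm
            | cons l'' r =>
              refine ⟨?_, h1.2⟩
              exact (by decide : ∀ l l' l'' : L, l ≠ 4 → Comp l l' → mm l l' ≠ 4 →
                ¬ Comp l' l'' → ¬ Comp (mm l l') l'') l l' l'' hl hc hm h1.1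
          · have : wl (mm l l') ≤ wl l + wl l' := by
              clear * -
              revert l l'; decide
            have : wt (mm l l' :: r) = wl (mm l l') + wt r := by simp [wt]
            omega
      · refine ⟨l :: l' :: r, ⟨hc, h1⟩, ?_, by rw [ev_cons, h3, ev_cons]⟩
        have : wt (l :: l' :: r) = wl l + wt (l' :: r) := by simp [wt]
        omega

lemma Alt.len {w : List L} (h : Alt w) : w.length ≤ wt w := by
  induction w with
  | nil => simp
  | cons l w ih =>
    have := ih h.tail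
    have h2 : 1 ≤ wl l := by
      have := h.head
      revert this
      clear * -
      revert l; decide
    simp only [wt, List.map_cons, List.sum_cons, List.length_cons] at this ⊢
    omega

lemma Alt.contr {w : List L} (h : Alt w) :
    7 * sw w ≤ 6 * wt w + (if w.head? = some 0 ∨ w = [] then 0 else 30) := by
  induction w with
  | nil => simp [sw]
  | cons l w ih =>
    have ih := ih h.tail
    have e1 : sw (l :: w) = wl (so l true) + wl (so l false) + sw w := by simp [sw]
    have e2 : wt (l :: w) = wl l + wt w := by simp [wt]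
    by_cases hl : l = 0
    · subst hl
      have : wl (so 0 true) + wl (so 0 false) = 0 := by decide
      have : wl 0 = 5 := by decide
      simp only [List.head?_cons, true_or, if_true]
      split_ifs at ih <;> omega
    · have h3 : 7 * (wl (so l true) + wl (so l false)) ≤ 6 * wl l + 30 := by
        clear * -
        revert l; decide
      have h4 : w.head? = some 0 ∨ w = [] := by
        cases w with
        | nil => exact Or.inr rfl
        | cons l' r =>
          left
          by_contra hc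
          exact h.1 (Or.inl ⟨fun e => absurd e hl, fun e => absurd (by simp [e]) hc⟩)
      rw [if_pos h4] at ih
      rw [if_neg (by simp [hl])]
      omega

def B (N : ℕ → ℕ) (n : ℕ) : Set (Perm (X N)) := {g | ∃ w, wt w ≤ n ∧ ev N w = g}

def words : ℕ → Finset (List L)
  | 0 => {[]}
  | n + 1 => insert [] (Finset.image₂ List.cons Finset.univ (words n))

lemma mem_words (n : ℕ) : ∀ w : List L, w.length ≤ n → w ∈ words n := by
  induction n with
  | zero => intro w h; simp [words, List.length_eq_zero_iff.1 (Nat.le_zero.1 h)]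
  | succ n ih =>
    intro w h
    cases w with
    | nil => simp [words]
    | cons l w =>
      exact Finset.mem_insert_of_mem (Finset.mem_image₂_of_mem (Finset.mem_univ _)
        (ih w (by simpa using h)))

lemma card_words (n : ℕ) : (words n).card ≤ 6 ^ n := by
  induction n with
  | zero => simp [words]
  | succ n ih =>
    have h1 := Finset.card_insert_le [] (Finset.image₂ List.cons Finset.univ (words n))
    have h2 := Finset.card_image₂_le List.cons (Finset.univ : Finset L) (words n)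
    have h3 : 1 ≤ 6 ^ n := Nat.one_le_pow _ _ (by norm_num)
    simp only [Finset.card_univ, Fintype.card_fin] at h2
    rw [words, pow_succ]
    omega

lemma B_sub (N : ℕ → ℕ) (n : ℕ) : B N n ⊆ ev N '' (words n) := by
  rintro _ ⟨w, hw, rfl⟩
  obtain ⟨u, h1, h2, h3⟩ := reduce N w
  exact ⟨u, mem_words n u (h1.len.trans (h2.trans hw)), h3⟩

lemma B_fin (N : ℕ → ℕ) (n : ℕ) : (B N n).Finite :=
  ((words n).finite_toSet.image _).subset (B_sub N n)

lemma B_base (N : ℕ → ℕ) (n : ℕ) : (B N n).ncard ≤ 6 ^ n := by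
  refine (Set.ncard_le_ncard (B_sub N n) ((words n).finite_toSet.image _)).trans ?_
  refine (Set.ncard_image_le (words n).finite_toSet).trans ?_
  rw [Set.ncard_coe_finset]
  exact card_words n

lemma B_rec (N : ℕ → ℕ) (n m : ℕ) (hm : 6 * n + 30 < 7 * (m + 1)) :
    (B N n).ncard ≤ (Fintype.card (Perm (ZMod (N 0 + 4))) * 4) *
      ∑ i ∈ Finset.range (m + 1), (B (sh N) i).ncard * (B (sh N) (m - i)).ncard := by
  classical
  have hex : ∀ g : Perm (X N), ∃ w, g ∈ B N n → (wt (secs w true) + wt (secs w false) ≤ m ∧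
      ev N w = g) := by
    intro g
    by_cases hg : g ∈ B N n
    · obtain ⟨w, hw, rfl⟩ := hg
      obtain ⟨u, h1, h2, h3⟩ := reduce N w
      refine ⟨u, fun _ => ⟨?_, h3⟩⟩
      have := h1.contr
      rw [wt_secs]
      split_ifs at this <;> omega
    · exact ⟨[], fun h => absurd h hg⟩
  choose W hW using hex
  set T : Finset ((Perm (ZMod (N 0 + 4)) × (Bool → Bool)) × (Perm (X (sh N)) × Perm (X (sh N)))) :=
    Finset.univ ×ˢ (Finset.range (m + 1)).biUnion fun i =>
      (B_fin (sh N) i).toFinset ×ˢ (B_fin (sh N) (m - i)).toFinset with hT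
  have h1 : (B N n).ncard ≤ Set.ncard (SetLike.coe T) := by
    refine Set.ncard_le_ncard_of_injOn (fun g => ((ev0 (N 0) (W g), rt (W g)),
      (ev (sh N) (secs (W g) true), ev (sh N) (secs (W g) false)))) ?_ ?_ T.finite_toSet
    · intro g hg
      have := (hW g hg).1
      simp only [hT, Finset.coe_product, Finset.coe_univ, Set.mem_prod, Set.mem_univ, true_and,
        Finset.mem_coe, Finset.mem_biUnion, Finset.mem_range, Finset.mem_product,
        Set.Finite.mem_toFinset]
      exact ⟨wt (secs (W g) true), by omega, ⟨_, le_rfl, rfl⟩, ⟨_, by omega, rfl⟩⟩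
    · intro g hg g' hg' e
      simp only [Prod.mk.injEq] at e
      obtain ⟨⟨e1, e2⟩, e3, e4⟩ := e
      rw [← (hW g hg).2, ← (hW g' hg').2]
      ext1 p
      rcases X_cases p with ⟨y, rfl⟩ | ⟨x, q, rfl⟩
      · rw [ev_at_nil, ev_at_nil, e1]
      · rw [ev_at_cons, ev_at_cons, e2]
        cases x
        · rw [e4]
        · rw [e3]
  rw [Set.ncard_coe_finset, hT, Finset.card_product] at h1
  refine h1.trans (Nat.mul_le_mul (by simp) (Finset.card_biUnion_le.trans (le_of_eq ?_)))
  refine Finset.sum_congr rfl fun i _ => ?_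
  rw [Finset.card_product, Set.ncard_eq_toFinset_card _ (B_fin _ _),
    Set.ncard_eq_toFinset_card _ (B_fin _ _)]

def Sub (t : ℝ) : Prop := ∀ N, ∃ C : ℝ, ∀ n, ((B N n).ncard : ℝ) ≤ C * Real.exp (t * n)

lemma sub_step {t : ℝ} (ht : 0 < t) (h : Sub t) : Sub (7 / 8 * t) := by
  intro N
  obtain ⟨C, hC⟩ := h (sh N)
  set K : ℝ := ((Fintype.card (Perm (ZMod (N 0 + 4))) * 4 : ℕ) : ℝ) with hK
  have hK0 : 0 ≤ K := Nat.cast_nonneg _
  refine ⟨K * (C * C * Real.exp (5 * t) * (6 + 56 / t)), fun n => ?_⟩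
  set m := (6 * n + 30) / 7 with hm
  have h1 : ((B N n).ncard : ℝ) ≤ K * ∑ i ∈ Finset.range (m + 1),
      ((B (sh N) i).ncard : ℝ) * (B (sh N) (m - i)).ncard := by
    have := B_rec N n m (by omega)
    rw [hK]
    exact_mod_cast this
  have h2 : ∀ i ∈ Finset.range (m + 1), ((B (sh N) i).ncard : ℝ) * (B (sh N) (m - i)).ncard ≤
      C * C * Real.exp (t * m) := by
    intro i hi
    have hi : i ≤ m := Nat.lt_succ_iff.1 (Finset.mem_range.1 hi)
    refine (mul_le_mul (hC i) (hC (m - i)) (Nat.cast_nonneg _)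
      ((Nat.cast_nonneg _).trans (hC i))).trans (le_of_eq ?_)
    rw [Nat.cast_sub hi, show t * (m:ℝ) = t * i + t * (m - i) by ring, Real.exp_add]
    ring
  have h3 := Finset.sum_le_card_nsmul _ _ _ h2
  rw [Finset.card_range, nsmul_eq_mul] at h3
  have hm1 : (7:ℝ) * m ≤ 6 * n + 30 := by exact_mod_cast (by omega : 7 * m ≤ 6 * n + 30)
  have hn0 : (0:ℝ) ≤ n := Nat.cast_nonneg n
  have h4 : ((m + 1 : ℕ) : ℝ) ≤ (6 + 56 / t) * Real.exp (t * n / 56) := by
    have a1 := Real.add_one_le_exp (t * n / 56)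
    have a2 : 0 ≤ t * n / 56 := by positivity
    have a3 : 0 < 56 / t := by positivity
    have a4 : 56 / t * (t * n / 56) = n := by field_simp
    push_cast
    nlinarith
  have h5 : Real.exp (t * m) ≤ Real.exp (5 * t) * Real.exp (6 / 7 * t * n) := by
    rw [← Real.exp_add, Real.exp_le_exp]
    nlinarith
  have h6 : Real.exp (7 / 8 * t * n) = Real.exp (6 / 7 * t * n) * Real.exp (t * n / 56) := by
    rw [← Real.exp_add]; congr 1; ring
  have hCC : 0 ≤ C * C := mul_self_nonneg C
  refine h1.trans ?_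
  rw [mul_assoc K, h6]
  refine mul_le_mul_of_nonneg_left (h3.trans ?_) hK0
  calc ((m + 1 : ℕ) : ℝ) * (C * C * Real.exp (t * m))
      ≤ ((6 + 56 / t) * Real.exp (t * n / 56)) *
        (C * C * (Real.exp (5 * t) * Real.exp (6 / 7 * t * n))) :=
        mul_le_mul h4 (mul_le_mul_of_nonneg_left h5 hCC) (by positivity) (by positivity)
    _ = _ := by ring

theorem subexp {ε : ℝ} (hε : 0 < ε) : Sub ε := by
  have h : ∀ j : ℕ, Sub ((7 / 8) ^ j * 5) := by
    intro j
    induction j with
    | zero =>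
      intro N
      refine ⟨1, fun n => ?_⟩
      have h1 : ((B N n).ncard : ℝ) ≤ 6 ^ n := by exact_mod_cast B_base N n
      have h2 : (6:ℝ) ≤ Real.exp 5 := by linarith [Real.add_one_le_exp 5]
      rw [pow_zero, one_mul, one_mul, mul_comm, Real.exp_nat_mul]
      exact h1.trans (pow_le_pow_left₀ (by norm_num) h2 n)
    | succ j ih =>
      have := sub_step (by positivity) ih
      rwa [← mul_assoc, ← pow_succ'] at this
  obtain ⟨j, hj⟩ := exists_pow_lt_of_lt_one (show 0 < ε / 5 by positivity)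
    (show (7 / 8 : ℝ) < 1 by norm_num)
  intro N
  obtain ⟨C, hC⟩ := h j N
  refine ⟨C, fun n => (hC n).trans ?_⟩
  have hC0 : 0 ≤ C := by
    have := (Nat.cast_nonneg _).trans (hC 0)
    simpa using this
  refine mul_le_mul_of_nonneg_left (Real.exp_le_exp.2 ?_) hC0
  exact mul_le_mul_of_nonneg_right (by linarith) (Nat.cast_nonneg n)

end Pool.Agent.H.MP_b4aa87_al
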